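import Pool.Agent.Helper65.Desc.Main

/-!
Lifts of regular vector fields: the order of the poles of the coefficients.
-/

set_option autoImplicit false
set_option linter.unusedSectionVars false
set_option linter.overlappingInstances false

open FF Module Pool.Agent.W602.GT Pool.Agent.W603.LV Pool.Agent.W619.PQ Pool.Agent.Y172

namespace Pool.Agent.Helper65.TD

open Pool.Agent.Helper65.Desc

variable {L K : Type} [Field L] [Field K] [Algebra ℂ L] [Algebra ℂ K] [Algebra L K]
  [IsScalarTower ℂ L K] [FiniteDimensional L K] [Algebra.EssFiniteType ℂ L]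
  [Algebra.EssFiniteType ℂ K] {n : ℕ}

/-- The coefficients of the lifts of the vector fields of a frame at `P` in a frame at `Q`. -/
theorem coeff_ge (hL : Algebra.trdeg ℂ L = n) {P : Place ℂ L} (hP : Divisorial n P)
    {yP : Fin n → L} {EP : Fin n → Derivation ℂ L L} {i0 : Fin n} (hl : Loc P yP EP i0)
    {EP' : Fin n → Derivation ℂ K K}
    (hEP' : ∀ i f, EP' i (algebraMap L K f) = algebraMap L K (EP i f)) {Q : Place ℂ K} {e : ℕ}
    (hQ : Over Q P e) {yQ : Fin n → K} {EQ : Fin n → Derivation ℂ K K} {j0 : Fin n}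
    (hlQ : Loc Q yQ EQ j0) (i j : Fin n) :
    Ge Q (if i = i0 then 1 - (e : ℤ) else 0) (EP' i (yQ j)) := by
  classical
  have hK : Algebra.trdeg ℂ K = n := trdeg_up (K := L) hL
  have hQd : Divisorial n Q := divisorial_up hQ hP
  have he : (1 : ℤ) ≤ e := by exact_mod_cast hQ.1
  obtain ⟨c, hc⟩ : ∃ c : Matrix (Fin n) (Fin n) K, c = Matrix.of fun i j => EP' i (yQ j) :=
    ⟨_, rfl⟩
  obtain ⟨d, hd⟩ : ∃ d : Matrix (Fin n) (Fin n) K,
      d = Matrix.of fun i j => EQ i (algebraMap L K (yP j)) := ⟨_, rfl⟩
  -- the product is the unit matrix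
  have hcd : c * d = 1 := by
    ext a b
    rw [Matrix.mul_apply, Matrix.one_apply]
    have h1 := Pool.Agent.W73.PG.PULL.expand yQ hlQ.bas EQ hlQ.dual (EP' a)
    have h2 : (∑ b, EP' a (yQ b) • EQ b) (algebraMap L K (yP b)) =
        EP' a (algebraMap L K (yP b)) := by rw [h1]
    rw [sum_smul_apply, hEP', hl.dual] at h2
    rw [hc, hd]
    simp only [Matrix.of_apply]
    rw [h2]
    split_ifs
    · rw [map_one]
    · rw [map_zero]
  have hdet : c.det * d.det = 1 := by rw [← Matrix.det_mul, hcd, Matrix.det_one]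
  have hd0 : d.det ≠ 0 := right_ne_zero_of_mul_eq_one hdet
  have hc0 : c.det ≠ 0 := left_ne_zero_of_mul_eq_one hdet
  -- the determinant
  have hcdet : Ge Q (1 - (e : ℤ)) c.det := by
    have h1 := down_ge hK hQ hQd hl hEP' (plF_pluri 1 yQ (1 : K)) (c := 0) (fun G' hG' => by
      have h2 : Ge Q 0 (Matrix.of fun i j => G' i (yQ j) : Matrix (Fin n) (Fin n) K).det :=
        Pool.Agent.W603.LV.ge_det Q _ _ (fun _ _ => 0) (fun a b => hG' a _ (hlQ.reg b))
          fun σ => by simp
      rw [plF, pow_one, mul_one]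
      rcases h2 with h | h
      · exact Or.inl h
      · exact Or.inr (by exact_mod_cast h))
    rw [plF, pow_one, mul_one, ← hc] at h1
    have h2 := h1.resolve_left hc0
    right
    have h3 : ((1 - e : ℤ) : ℝ) ≤ (Q.ord c.det : ℝ) := by
      push_cast at h2 ⊢
      linarith
    exact_mod_cast h3
  -- the entries of `d`
  have hdreg : ∀ a b, Ge Q (if b = i0 then (e : ℤ) - 1 else 0) (d a b) := by
    intro a b
    rw [hd, Matrix.of_apply]
    split_ifs with hb
    · rw [hb]
      have h3 := ge_der_reg (hlQ.pres a) (algebraMap L K (yP i0))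
      rw [hQ.2, hl.unif, mul_one] at h3
      exact h3
    · exact hlQ.pres a _ (hQ.reg.2 (hl.reg b))
  -- the inverse
  have hcadj : c = c.det • d.adjugate := by
    have h1 : c * (d * d.adjugate) = c * (d.det • (1 : Matrix (Fin n) (Fin n) K)) := by
      rw [Matrix.mul_adjugate]
    rw [← Matrix.mul_assoc, hcd, Matrix.one_mul, Matrix.mul_smul, Matrix.mul_one] at h1
    rw [h1, smul_smul, hdet, one_smul]
  have hentry : EP' i (yQ j) = c.det * (d.updateRow j (Pi.single i 1)).det := by
    have h1 : c i j = c.det * d.adjugate i j := by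
      conv_lhs => rw [hcadj]
      rw [Matrix.smul_apply, smul_eq_mul]
    rw [Matrix.adjugate_apply] at h1
    rw [← h1, hc, Matrix.of_apply]
  have hadj : Ge Q (if i = i0 then 0 else (e : ℤ) - 1) (d.updateRow j (Pi.single i 1)).det := by
    rw [← Matrix.det_transpose]
    refine ge_det Q _ _ (fun b _ => if i = i0 then 0 else if b = i0 then (e : ℤ) - 1 else 0)
      (fun b a => ?_) fun σ => ?_
    · rw [Matrix.transpose_apply]
      by_cases ha : a = j
      · rw [ha, Matrix.updateRow_self]
        by_cases hb : b = i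
        · rw [hb, Pi.single_eq_same]
          split_ifs
          · exact Ge.one
          · exact Ge.one
        · rw [Pi.single_eq_of_ne hb]
          exact Ge.zero
      · rw [Matrix.updateRow_ne ha]
        split_ifs with h1 h2
        · refine (hdreg a b).mono ?_
          split_ifs <;> omega
        · have h3 := hdreg a b
          rwa [if_pos h2] at h3
        · have h3 := hdreg a b
          rwa [if_neg h2] at h3
    · split_ifs with h1
      · simp
      · have h3 : ∑ i, (if σ i = i0 then (e : ℤ) - 1 else 0) = e - 1 := by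
          rw [Finset.sum_eq_single (σ.symm i0)]
          · simp
          · intro i _ hi
            rw [if_neg]
            intro h
            exact hi (by rw [← h]; simp)
          · intro h
            exact absurd (Finset.mem_univ _) h
        exact h3.ge
  rw [hentry]
  refine (hcdet.mul hadj).mono ?_
  split_ifs <;> omega

/-- The lift of a vector field which is regular at `P`, at the places over `P`. -/
theorem lift_ge (hL : Algebra.trdeg ℂ L = n) {P : Place ℂ L} (hP : Divisorial n P)
    {yP : Fin n → L} {EP : Fin n → Derivation ℂ L L} {i0 : Fin n} (hl : Loc P yP EP i0)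
    {EP' : Fin n → Derivation ℂ K K}
    (hEP' : ∀ i f, EP' i (algebraMap L K f) = algebraMap L K (EP i f)) {Q : Place ℂ K} {e : ℕ}
    (hQ : Over Q P e) (i : Fin n) {f : K} (hf : Q.Reg f) :
    Ge Q (if i = i0 then 1 - (e : ℤ) else 0) (EP' i f) := by
  classical
  have hK : Algebra.trdeg ℂ K = n := trdeg_up (K := L) hL
  have hQd : Divisorial n Q := divisorial_up hQ hP
  obtain ⟨yQ, EQ, j0, hlQ⟩ := exists_loc hK hQd
  have h1 := Pool.Agent.W73.PG.PULL.expand yQ hlQ.bas EQ hlQ.dual (EP' i)
  have h2 : (∑ b, EP' i (yQ b) • EQ b) f = EP' i f := by rw [h1]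
  rw [← h2, sum_smul_apply]
  refine Ge.sum _ _ fun b _ => ?_
  have h3 := (coeff_ge hL hP hl hEP' hQ hlQ i b).mul (hlQ.pres b f hf)
  rwa [add_zero] at h3

end Pool.Agent.Helper65.TD
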