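import Pool.Agent.Helper65.TD.Stm

/-! The polarised norm (stub of helper65, proof by helper92). -/

set_option autoImplicit false

open Module Finset

namespace Pool.Agent.Helper65.TD.NORM

theorem sumS {r : ℕ} {L : Type} [CommRing L] (T : Finset (Fin r)) :
    ∑ S : Finset (Fin r), (if T ⊆ S then (-1 : L) ^ (r - S.card) else 0) =
      if T = univ then 1 else 0 := by
  have h1 : ∑ S : Finset (Fin r), (if T ⊆ S then (-1 : L) ^ (r - S.card) else 0) =
      ∑ U : Finset (Fin r), (if U ⊆ Tᶜ then (-1 : L) ^ U.card else 0) := by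
    refine Fintype.sum_equiv (compl_involutive (α := Finset (Fin r))).toPerm _ _ fun S => ?_
    simp only [Function.Involutive.coe_toPerm, Finset.compl_subset_compl, Finset.card_compl,
      Fintype.card_fin]
  have h2 : ∑ U : Finset (Fin r), (if U ⊆ Tᶜ then (-1 : L) ^ U.card else 0) =
      ∑ U ∈ (Tᶜ).powerset, (-1 : L) ^ U.card := by
    rw [← Finset.sum_filter]
    refine Finset.sum_congr ?_ fun _ _ => rfl
    ext U
    simp
  have h3 := congrArg (Int.cast : ℤ → L) (Finset.sum_powerset_neg_one_pow_card (x := Tᶜ))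
  rw [h1, h2]
  push_cast at h3
  rw [h3]
  simp only [Finset.compl_eq_empty_iff]

theorem polar {r : ℕ} {L K : Type} [Field L] [AddCommGroup K] [Module L K]
    (D : MultilinearMap L (fun _ : Fin r => K) L) (x : Fin r → K) :
    ∑ σ : Equiv.Perm (Fin r), D (fun i => x (σ i)) =
      ∑ S : Finset (Fin r), (-1 : L) ^ (r - S.card) * D (fun _ => ∑ a ∈ S, x a) := by
  have h1 : ∀ S : Finset (Fin r), D (fun _ => ∑ a ∈ S, x a) =
      ∑ p : Fin r → Fin r, if univ.image p ⊆ S then D (fun i => x (p i)) else 0 := by
    intro S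
    rw [MultilinearMap.map_sum_finset D (fun _ a => x a) (fun _ => S), ← Finset.sum_filter]
    refine Finset.sum_congr ?_ fun _ _ => rfl
    ext p
    simp [Finset.image_subset_iff]
  have h2 : ∑ S : Finset (Fin r), (-1 : L) ^ (r - S.card) * D (fun _ => ∑ a ∈ S, x a) =
      ∑ p : Fin r → Fin r, (if univ.image p = univ then 1 else 0) * D (fun i => x (p i)) := by
    simp_rw [h1, Finset.mul_sum]
    rw [Finset.sum_comm]
    refine Finset.sum_congr rfl fun p _ => ?_
    rw [← sumS (L := L) (univ.image p), Finset.sum_mul]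
    refine Finset.sum_congr rfl fun S _ => ?_
    split_ifs <;> simp
  rw [h2]
  have h3 : ∑ p : Fin r → Fin r, (if univ.image p = univ then (1 : L) else 0) *
      D (fun i => x (p i)) = ∑ p ∈ univ.filter (fun p : Fin r → Fin r => Function.Bijective p),
        D (fun i => x (p i)) := by
    rw [Finset.sum_filter]
    refine Finset.sum_congr rfl fun p _ => ?_
    have : univ.image p = univ ↔ Function.Bijective p := by
      rw [← Finite.surjective_iff_bijective, Finset.eq_univ_iff_forall]
      simp only [Finset.mem_image, Finset.mem_univ, true_and]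
      rfl
    simp only [this]
    split_ifs <;> simp
  rw [h3]
  refine Finset.sum_bij (fun σ _ => (σ : Fin r → Fin r)) ?_ ?_ ?_ ?_
  · intro σ _
    exact mem_filter.2 ⟨mem_univ _, σ.bijective⟩
  · intro σ _ τ _ h
    exact Equiv.coe_fn_injective h
  · intro p hp
    exact ⟨Equiv.ofBijective p (mem_filter.1 hp).2, mem_univ _, rfl⟩
  · intro σ _
    rfl

/-- The rows of the matrix of the multiplication. -/
noncomputable def row {r : ℕ} {L K : Type} [Field L] [Field K] [Algebra L K]
    (b : Basis (Fin r) L K) (i : Fin r) : K →ₗ[L] (Fin r → L) where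
  toFun x := Algebra.leftMulMatrix b x i
  map_add' x y := by
    rw [map_add]
    rfl
  map_smul' c x := by
    rw [map_smul]
    rfl

/-- The determinant. -/
noncomputable def DD {r : ℕ} {L K : Type} [Field L] [Field K] [Algebra L K]
    (b : Basis (Fin r) L K) : MultilinearMap L (fun _ : Fin r => K) L :=
  (Matrix.detRowAlternating (n := Fin r) (R := L)).toMultilinearMap.compLinearMap (row b)

theorem DD_const {r : ℕ} {L K : Type} [Field L] [Field K] [Algebra L K]
    (b : Basis (Fin r) L K) (y : K) : DD b (fun _ => y) = Algebra.norm L y := by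
  rw [Algebra.norm_eq_matrix_det b]
  rfl

theorem t : Pool.Agent.Helper65.TD.S_NORM := by
  intro L K _ _ _ _
  obtain ⟨b⟩ : Nonempty (Basis (Fin (finrank L K)) L K) := ⟨Module.finBasis L K⟩
  refine ⟨∑ σ : Equiv.Perm (Fin (finrank L K)), (DD b).domDomCongr σ, fun x => ?_, fun x => ?_⟩
  · rw [MultilinearMap.sum_apply]
    simp only [MultilinearMap.domDomCongr_apply, DD_const]
    rw [Finset.sum_const, Finset.card_univ, Fintype.card_perm, Fintype.card_fin, nsmul_eq_mul]
  · rw [MultilinearMap.sum_apply]
    simp only [MultilinearMap.domDomCongr_apply]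
    rw [polar (DD b) x]
    simp only [DD_const]

end Pool.Agent.Helper65.TD.NORM
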