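import Pool.Agent.Helper65.TD.Ten
import Pool.Agent.Helper65.TD.NORM

/-!
Descent of tensor differentials along maps of small degree.
-/

set_option autoImplicit false
set_option linter.unusedSectionVars false
set_option linter.overlappingInstances false

open FF Module Pool.Agent.W602.GT Pool.Agent.W603.LV Pool.Agent.W619.PQ Pool.Agent.Y172

namespace Pool.Agent.Helper65.TD

open Pool.Agent.Helper65.Desc

section

variable {L K V : Type} [Field L] [Field K] [Algebra L K] [AddCommGroup V] [Module L V]

theorem upd {r : ℕ} {ι : Type} [DecidableEq (Fin r × ι)] [DecidableEq ι]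
    (X : MultilinearMap L (fun _ : ι => V) K) (G : Fin r × ι → V) (a : Fin r) (x : ι) (C : V) :
    (fun a' => X fun x' => Function.update G (a, x) C (a', x')) =
      Function.update (fun a' => X fun x' => G (a', x')) a
        (X (Function.update (fun x' => G (a, x')) x C)) := by
  funext a'
  by_cases h : a' = a
  · subst h
    rw [Function.update_self]
    congr 1
    funext x'
    by_cases h2 : x' = x
    · subst h2
      simp
    · rw [Function.update_of_ne h2, Function.update_of_ne]
      intro h3
      exact h2 (Prod.ext_iff.1 h3).2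
  · rw [Function.update_of_ne h]
    congr 1
    funext x'
    rw [Function.update_of_ne]
    intro h3
    exact h (Prod.ext_iff.1 h3).1

/-- a multilinear function of several values of a multilinear function -/
noncomputable def mix {r : ℕ} {ι : Type} (f : MultilinearMap L (fun _ : Fin r => K) L)
    (X : MultilinearMap L (fun _ : ι => V) K) : MultilinearMap L (fun _ : Fin r × ι => V) L where
  toFun G := f fun a => X fun x => G (a, x)
  map_update_add' := by
    classical
    intro _ G ax A B
    obtain ⟨a, x⟩ := ax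
    rw [upd X G a x (A + B), upd X G a x A, upd X G a x B, X.map_update_add, f.map_update_add]
  map_update_smul' := by
    classical
    intro _ G ax c A
    obtain ⟨a, x⟩ := ax
    rw [upd X G a x (c • A), upd X G a x A, X.map_update_smul, f.map_update_smul]

theorem mix_apply {r : ℕ} {ι : Type} (f : MultilinearMap L (fun _ : Fin r => K) L)
    (X : MultilinearMap L (fun _ : ι => V) K) (G : Fin r × ι → V) :
    mix f X G = f fun a => X fun x => G (a, x) := rfl

end

section

variable {K : Type} [Field K] [Algebra ℂ K]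

/-- regular along all prime divisors -/
def RegT {ι : Type} (n : ℕ) (T : MultilinearMap K (fun _ : ι => Derivation ℂ K K) K) : Prop :=
  ∀ P : Place ℂ K, Divisorial n P → ∀ D : ι → Derivation ℂ K K, (∀ x, DerReg P (D x)) →
    P.Reg (T D)

/-- the products with the monomials of degree at most `M` in the `t j` are regular -/
def TwT {ι : Type} {N : ℕ} (n M : ℕ) (t : Fin N → K)
    (T : MultilinearMap K (fun _ : ι => Derivation ℂ K K) K) : Prop :=
  ∀ a : Fin N → ℕ, ∑ j, a j ≤ M → ∀ P : Place ℂ K, Divisorial n P →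
    ∀ D : ι → Derivation ℂ K K, (∀ x, DerReg P (D x)) → P.Reg ((∏ j, t j ^ a j) * T D)

theorem tw_ge {ι : Type} {N n M : ℕ} {t : Fin N → K}
    {T : MultilinearMap K (fun _ : ι => Derivation ℂ K K) K} (h : TwT n M t T) {Q : Place ℂ K}
    (hQ : Divisorial n Q) {D : ι → Derivation ℂ K K} (hD : ∀ x, DerReg Q (D x)) :
    Ge Q (M * pol t Q) (T D) := by
  classical
  obtain ⟨j, hj0, hj⟩ := exists_pol t Q
  revert hj0 hj
  refine Fin.cases ?_ (fun i => ?_) j
  · intro _ hj
    rw [Fin.cons_zero, Q.ord_one, neg_zero] at hj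
    have h1 := h 0 (by simp) Q hQ D hD
    rw [hj, mul_zero]
    have h2 : Q.Reg (T D) := by simpa using h1
    exact h2
  · intro hj0 hj
    rw [Fin.cons_succ] at hj0 hj
    have h1 := h (Pi.single i M) (by simp) Q hQ D hD
    have h2 : ∏ j, t j ^ (Pi.single i M : Fin N → ℕ) j = t i ^ M := by
      rw [Finset.prod_eq_single i]
      · rw [Pi.single_eq_same]
      · intro b _ hb
        rw [Pi.single_eq_of_ne hb, pow_zero]
      · intro hi
        exact absurd (Finset.mem_univ i) hi
    rw [h2] at h1
    by_cases h0 : T D = 0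
    · exact Or.inl h0
    right
    have h3 := h1.resolve_left (mul_ne_zero (pow_ne_zero _ hj0) h0)
    rw [Q.ord_mul (pow_ne_zero _ hj0) h0, Q.ord_pow] at h3
    rw [hj]
    linarith

end

section

variable {L K : Type} [Field L] [Field K] [Algebra ℂ L] [Algebra ℂ K] [Algebra L K]
  [IsScalarTower ℂ L K] {n : ℕ}

/-- the lift of vector fields, in coordinates -/
noncomputable def lft (z : Fin n → L) (E' : Fin n → Derivation ℂ K K) :
    Derivation ℂ L L →ₗ[L] Derivation ℂ K K where
  toFun G := ∑ i, G (z i) • E' i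
  map_add' A B := by
    rw [← Finset.sum_add_distrib]
    refine Finset.sum_congr rfl fun i _ => ?_
    rw [← add_smul]
    rfl
  map_smul' c A := by
    rw [RingHom.id_apply, Finset.smul_sum]
    refine Finset.sum_congr rfl fun i _ => ?_
    rw [smul_smul]
    rfl

theorem lft_alg {z : Fin n → L} {E : Fin n → Derivation ℂ L L} (hz : IsTranscendenceBasis ℂ z)
    (hE : ∀ i j, E i (z j) = if i = j then 1 else 0) {E' : Fin n → Derivation ℂ K K}
    (hE' : ∀ i f, E' i (algebraMap L K f) = algebraMap L K (E i f)) (G : Derivation ℂ L L) (f : L) :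
    lft z E' G (algebraMap L K f) = algebraMap L K (G f) := by
  have h1 := Pool.Agent.W73.PG.PULL.expand z hz E hE G
  conv_rhs => rw [← h1, sum_apply, map_sum]
  change (∑ i, G (z i) • E' i) (algebraMap L K f) = _
  rw [sum_apply]
  refine Finset.sum_congr rfl fun i _ => ?_
  rw [Derivation.smul_apply, Derivation.smul_apply, hE', Algebra.smul_def, smul_eq_mul, map_mul]

theorem lft_E {z : Fin n → L} {E : Fin n → Derivation ℂ L L}
    (hE : ∀ i j, E i (z j) = if i = j then 1 else 0) (E' : Fin n → Derivation ℂ K K) (i : Fin n) :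
    lft z E' (E i) = E' i := by
  classical
  change ∑ j, E i (z j) • E' j = E' i
  rw [Finset.sum_eq_single i]
  · rw [hE, if_pos rfl, one_smul]
  · intro j _ hj
    rw [hE, if_neg (Ne.symm hj), zero_smul]
  · intro h
    exact absurd (Finset.mem_univ _) h

/-- the pull-back of the values to the small field -/
noncomputable def pl {ι : Type} (z : Fin n → L) (E' : Fin n → Derivation ℂ K K)
    (T : MultilinearMap K (fun _ : ι => Derivation ℂ K K) K) :
    MultilinearMap L (fun _ : ι => Derivation ℂ L L) K :=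
  (T.restrictScalars L).compLinearMap fun _ => lft z E'

theorem pl_apply {ι : Type} (z : Fin n → L) (E' : Fin n → Derivation ℂ K K)
    (T : MultilinearMap K (fun _ : ι => Derivation ℂ K K) K) (G : ι → Derivation ℂ L L) :
    pl z E' T G = T fun x => lft z E' (G x) := rfl

end

section

variable {L K : Type} [Field L] [Field K] [Algebra ℂ L] [Algebra ℂ K] [Algebra L K]
  [IsScalarTower ℂ L K] [FiniteDimensional L K] [Algebra.EssFiniteType ℂ L]
  [Algebra.EssFiniteType ℂ K] {n N M p d : ℕ}

/-- the value of the polarised norm, times a power of the discriminant, is regular -/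
theorem mixed_reg {f : MultilinearMap L (fun _ : Fin (finrank L K) => K) L}
    (hf : ∀ x : Fin (finrank L K) → K, f x =
      ∑ S : Finset (Fin (finrank L K)), (-1 : L) ^ (finrank L K - S.card) *
        Algebra.norm L (∑ a ∈ S, x a)) {P : Place ℂ L} {k b : ℕ} {t : Fin N → K} {h g : K}
    (hM : b + k * (2 * (finrank L K - 1)) ≤ M)
    (hh : ∀ Q : Place ℂ K, Ge Q (-(pol t Q)) h) (hg : ∀ Q : Place ℂ K, Ge Q (-(b * pol t Q)) g)
    {x : Fin (finrank L K) → K}
    (hx : ∀ (Q : Place ℂ K) (e : ℕ), Over Q P e → ∀ a, Ge Q (k * (1 - e) + M * pol t Q) (x a)) :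
    Ge P 0 (Algebra.norm L g * (f x * dsc L h ^ k)) := by
  classical
  have h1 : Algebra.norm L g * (f x * dsc L h ^ k) =
      ∑ S : Finset (Fin (finrank L K)), (-1 : L) ^ (finrank L K - S.card) *
        (Algebra.norm L (g * ∑ a ∈ S, x a) * dsc L h ^ k) := by
    rw [hf, Finset.sum_mul, Finset.mul_sum]
    refine Finset.sum_congr rfl fun S _ => ?_
    rw [map_mul]
    ring
  rw [h1]
  refine Ge.sum _ _ fun S _ => ?_
  have h2 : Ge P 0 ((-1 : L) ^ (finrank L K - S.card)) := by
    have h3 := (Ge.intCast (P := P) (-1)).pow (finrank L K - S.card)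
    rw [mul_zero] at h3
    push_cast at h3
    exact h3
  have h4 : Ge P 0 (Algebra.norm L (g * ∑ a ∈ S, x a) * dsc L h ^ k) := by
    refine local_reg (q := P) (M := 2 * (finrank L K - 1)) le_rfl (a := pol t) (pol_nonneg t)
      (fun Q _ _ => hh Q) fun Q e hQ => ?_
    have h5 : Ge Q (k * (1 - e) + M * pol t Q) (∑ a ∈ S, x a) :=
      Ge.sum _ _ fun a _ => hx Q e hQ a
    refine ((hg Q).mul h5).mono ?_
    have h3 : ((b + k * (2 * (finrank L K - 1)) : ℕ) : ℤ) ≤ M := by exact_mod_cast hM
    have h4 := mul_le_mul_of_nonneg_right h3 (pol_nonneg t Q)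
    push_cast at h4 ⊢
    linarith
  have h6 := h2.mul h4
  rwa [add_zero] at h6

/-- a tensor which is not zero is not zero on lifts -/
theorem exists_ne (hL : Algebra.trdeg ℂ L = n) {ι : Type} [Fintype ι]
    {T : MultilinearMap K (fun _ : ι => Derivation ℂ K K) K} (hne : T ≠ 0) {z : Fin n → L}
    {E : Fin n → Derivation ℂ L L} (hz : IsTranscendenceBasis ℂ z)
    (hE : ∀ i j, E i (z j) = if i = j then 1 else 0) {E' : Fin n → Derivation ℂ K K}
    (hE' : ∀ i f, E' i (algebraMap L K f) = algebraMap L K (E i f)) :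
    ∃ s : ι → Fin n, T (fun x => E' (s x)) ≠ 0 := by
  classical
  by_contra hcon
  push Not at hcon
  apply hne
  ext D
  have hbas : IsTranscendenceBasis ℂ (fun j => algebraMap L K (z j)) := hz.algebraMap_comp
  have h1 : D = fun x => ∑ i, D x (algebraMap L K (z i)) • E' i := by
    funext x
    exact (Pool.Agent.W73.PG.PULL.expand (fun j => algebraMap L K (z j)) hbas E'
      (lift_dual hE hE') (D x)).symm
  rw [h1, MultilinearMap.map_sum, MultilinearMap.zero_apply]
  refine Finset.sum_eq_zero fun s _ => ?_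
  rw [MultilinearMap.map_smul_univ, hcon s, smul_zero]

/-- **Tensor differentials on the image.** -/
theorem desc (hL : Algebra.trdeg ℂ L = n) {k : ℕ} {t : Fin N → K}
    (ht : IntermediateField.adjoin L (Set.range t) = ⊤)
    {T : MultilinearMap K (fun _ : Fin k × Fin p => Derivation ℂ K K) K} (hT : Alt T)
    (hTw : TwT n M t T) (hne : T ≠ 0) (hM : k * (2 * (finrank L K - 1)) ≤ M) :
    ∃ S : MultilinearMap L (fun _ : (Fin (finrank L K) × Fin k) × Fin p => Derivation ℂ L L) L,
      Alt S ∧ RegT n S ∧ S ≠ 0 ∧ (k * (2 * (finrank L K - 1)) < M →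
        Algebra.trdeg ℂ (IntermediateField.adjoin ℂ (Set.range t)) = d →
        ∃ f : Fin d → L, AlgebraicIndependent ℂ f ∧ ∀ i, RegT n (f i • S)) := by
  classical
  have hcL : CharZero L := charZero_of_injective_algebraMap (algebraMap ℂ L).injective
  have hcK : CharZero K := charZero_of_injective_algebraMap (algebraMap ℂ K).injective
  obtain ⟨z, E, hz, hE⟩ := exists_crd (k := ℂ) (K := L) hL
  choose E' hE' using fun i => exists_lift (k := ℂ) (K := L) (L := K) hL (E i)
  obtain ⟨c, hc⟩ := exists_prim (k := ℂ) ht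
  obtain ⟨h, hh⟩ : ∃ h, h = ∑ j, c j • t j := ⟨_, rfl⟩
  rw [← hh] at hc
  have hhQ : ∀ Q : Place ℂ K, Ge Q (-(pol t Q)) h := by
    intro Q
    rw [hh]
    refine Ge.sum _ _ fun j _ => ?_
    rw [Algebra.smul_def]
    have h1 := (Ge.const (P := Q) (c j)).mul (ge_pol t Q j)
    rwa [zero_add] at h1
  have hd0 := dsc_ne hc
  obtain ⟨f, hf1, hf2⟩ := Pool.Agent.Helper65.TD.NORM.t L K
  obtain ⟨S0, hS0⟩ : ∃ S0 : MultilinearMap L
      (fun _ : Fin (finrank L K) × (Fin k × Fin p) => Derivation ℂ L L) L,
      S0 = dsc L h ^ k • mix f (pl z E' T) := ⟨_, rfl⟩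
  obtain ⟨S, hS⟩ : ∃ S : MultilinearMap L
      (fun _ : (Fin (finrank L K) × Fin k) × Fin p => Derivation ℂ L L) L,
      S = S0.domDomCongr (Equiv.prodAssoc (Fin (finrank L K)) (Fin k) (Fin p)).symm := ⟨_, rfl⟩
  have hval : ∀ G, S G = f (fun a => T fun x => lft z E' (G ((a, x.1), x.2))) * dsc L h ^ k := by
    intro G
    rw [hS, MultilinearMap.domDomCongr_apply, hS0, MultilinearMap.smul_apply, mix_apply,
      smul_eq_mul, mul_comm]
    rfl
  have hreg : ∀ (b : ℕ) (g : K), b + k * (2 * (finrank L K - 1)) ≤ M →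
      (∀ Q : Place ℂ K, Ge Q (-(b * pol t Q)) g) → RegT n (Algebra.norm L g • S) := by
    intro b g hbM hg P hP G hG
    rw [MultilinearMap.smul_apply, smul_eq_mul, hval]
    have h1 := mixed_reg (x := fun a => T fun x => lft z E' (G ((a, x.1), x.2))) hf2 (P := P)
      (k := k) hbM hhQ hg fun Q e hQ a =>
        val_lift hL hT hP hQ (fun D hD => tw_ge hTw (divisorial_up hQ hP) hD)
          (G := fun x => G ((a, x.1), x.2)) (fun x => hG _) fun x f => lft_alg hz hE hE' _ f
    exact h1
  refine ⟨S, ?_, ?_, ?_, fun hM' hd => ?_⟩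
  · -- alternating
    intro D ai b b' hbb hD
    obtain ⟨a, i⟩ := ai
    rw [hval]
    have h1 : f (fun a => T fun x => lft z E' (D ((a, x.1), x.2))) = 0 := by
      refine f.map_coord_zero a ?_
      refine hT _ i b b' hbb ?_
      change lft z E' (D ((a, i), b)) = lft z E' (D ((a, i), b'))
      rw [hD]
    rw [h1, zero_mul]
  · have h1 := hreg 0 1 (by omega) fun Q => by simpa using Ge.one (P := Q)
    rwa [map_one, one_smul] at h1
  · obtain ⟨s, hs⟩ := exists_ne hL hne hz hE hE'
    intro h0
    have h1 : S (fun y => E (s (y.1.2, y.2))) = 0 := by rw [h0]; rfl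
    rw [hval] at h1
    have h2 : (fun a : Fin (finrank L K) => T fun x : Fin k × Fin p =>
        lft z E' (E (s (((a, x.1), x.2).1.2, ((a, x.1), x.2).2)))) =
        fun _ => T fun x => E' (s x) := by
      funext a
      congr 1
      funext x
      exact lft_E hE E' (s x)
    have h3 : f (fun a => T fun x => lft z E' (E (s (x.1, x.2)))) =
        ((finrank L K).factorial : L) * Algebra.norm L (T fun x => E' (s x)) := by
      rw [← hf1]
      exact congrArg f h2
    rw [h3] at h1
    rcases mul_eq_zero.1 h1 with h4 | h4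
    · rcases mul_eq_zero.1 h4 with h5 | h5
      · exact (Nat.cast_ne_zero.2 (Nat.factorial_ne_zero _)) h5
      · exact (Algebra.norm_ne_zero_iff.2 hs) h5
    · exact pow_ne_zero _ hd0 h4
  · obtain ⟨J, a, hind⟩ := select (k := ℂ) (L := L) (K := K) hL hd
    refine ⟨_, hind, fun i => hreg 1 _ (by omega) fun Q => ?_⟩
    have h0 := pol_nonneg t Q
    rw [Nat.cast_one, one_mul]
    exact ((Ge.const (P := Q) (a i)).mono (by omega)).sub (ge_pol t Q (J i))

end

end Pool.Agent.Helper65.TD
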