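import Mathlib

/-!
The polarised norm.
-/

set_option autoImplicit false

open Module

namespace Pool.Agent.Helper65.TD

/-- **The polarised norm.** Let `K / L` be a finite extension of degree `r`, `char L = 0`. There is an
`L`-multilinear function `f` of `r` elements of `K`, with values in `L`, with
`f(x, ..., x) = r! * Norm x` and `f(x 1, ..., x r) = Σ_S (-1)^(r - |S|) Norm (Σ_{a ∈ S} x a)`, the sum
over the subsets `S` of `{1, ..., r}`.

Proof. Let `b` be a basis of `K / L` (indexed by `Fin r`), `A x = Algebra.leftMulMatrix b x` (linear in
`x`), so that `Algebra.norm L x = (A x).det` (`Algebra.norm_eq_matrix_det`). Put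
`f x = ∑ σ : Equiv.Perm (Fin r), Matrix.det (Matrix.of fun i j => A (x (σ i)) i j)`. Each summand is
multilinear in `x`: compose `Matrix.detRowAlternating.toMultilinearMap` with the linear maps
`x ↦ (A x) i` (`MultilinearMap.compLinearMap`) and reindex by `σ` (`MultilinearMap.domDomCongr`).
(1) If all `x a = x`, each summand is `(A x).det`, and there are `r!` of them.
(2) `Norm (∑ a ∈ S, x a) = det (of fun i j => ∑ a ∈ S, A (x a) i j)
= ∑ g : Fin r → S, det (of fun i j => A (x (g i)) i j)` (`MultilinearMap.map_sum_finset` for
`detRowAlternating`). So the right side is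
`∑ g : Fin r → Fin r, (∑_{S ⊇ image g} (-1)^(r - |S|)) * det (...)`, and the inner sum is `1` if `g` is
surjective, hence a permutation, and `0` otherwise (`Finset.sum_powerset_neg_one_pow_card` and
similar lemmas for the complements of `S`). -/
def S_NORM : Prop :=
  ∀ (L K : Type) [Field L] [Field K] [Algebra L K] [FiniteDimensional L K],
    ∃ f : MultilinearMap L (fun _ : Fin (finrank L K) => K) L,
      (∀ x : K, f (fun _ => x) = ((finrank L K).factorial : L) * Algebra.norm L x) ∧
      ∀ x : Fin (finrank L K) → K, f x =
        ∑ S : Finset (Fin (finrank L K)), (-1 : L) ^ (finrank L K - S.card) *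
          Algebra.norm L (∑ a ∈ S, x a)

end Pool.Agent.Helper65.TD
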