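import Pool.Agent.Helper65.TD.Loc

/-!
Rational sections of `(Ω^p)^⊗k` and their values on lifts of regular vector fields.
-/

set_option autoImplicit false
set_option linter.unusedSectionVars false
set_option linter.overlappingInstances false

open FF Module Pool.Agent.W602.GT Pool.Agent.W603.LV Pool.Agent.W619.PQ Pool.Agent.Y172

namespace Pool.Agent.Helper65.TD

open Pool.Agent.Helper65.Desc

section

variable {K : Type} [Field K] [Algebra ℂ K]

/-- rational sections of `(Ω^p)^⊗ι`: alternating in each of the blocks of `p` vector fields -/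
def Alt {ι : Type} {p : ℕ} (T : MultilinearMap K (fun _ : ι × Fin p => Derivation ℂ K K) K) :
    Prop :=
  ∀ (D : ι × Fin p → Derivation ℂ K K) (i : ι) (a b : Fin p), a ≠ b → D (i, a) = D (i, b) → T D = 0

theorem sum_apply {ι : Type} (s : Finset ι) (D : ι → Derivation ℂ K K) (f : K) :
    (∑ i ∈ s, D i) f = ∑ i ∈ s, D i f := by
  classical
  induction s using Finset.induction_on with
  | empty => simp
  | insert a s ha ih => rw [Finset.sum_insert ha, Finset.sum_insert ha, Derivation.add_apply, ih]

end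

section

variable {L K : Type} [Field L] [Field K] [Algebra ℂ L] [Algebra ℂ K] [Algebra L K]
  [IsScalarTower ℂ L K] [FiniteDimensional L K] [Algebra.EssFiniteType ℂ L]
  [Algebra.EssFiniteType ℂ K] {n p c : ℕ}

/-- the values on the lifts of a frame -/
theorem val_frame (hL : Algebra.trdeg ℂ L = n) {k : ℕ}
    {T : MultilinearMap K (fun _ : Fin k × Fin p => Derivation ℂ K K) K} (hT : Alt T)
    {P : Place ℂ L} (hP : Divisorial n P) {yP : Fin n → L} {EP : Fin n → Derivation ℂ L L}
    {i0 : Fin n} (hl : Loc P yP EP i0) {EP' : Fin n → Derivation ℂ K K}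
    (hEP' : ∀ i f, EP' i (algebraMap L K f) = algebraMap L K (EP i f)) {Q : Place ℂ K} {e : ℕ}
    (hQ : Over Q P e) {b : ℤ}
    (hreg : ∀ D : Fin k × Fin p → Derivation ℂ K K, (∀ x, DerReg Q (D x)) → Ge Q b (T D))
    (s : Fin k × Fin p → Fin n) : Ge Q (k * (1 - e) + b) (T fun x => EP' (s x)) := by
  classical
  have hK : Algebra.trdeg ℂ K = n := trdeg_up (K := L) hL
  have hQd : Divisorial n Q := divisorial_up hQ hP
  have he : (1 : ℤ) ≤ e := by exact_mod_cast hQ.1
  obtain ⟨yQ, EQ, j0, hlQ⟩ := exists_loc hK hQd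
  by_cases hinj : ∀ i a a', s (i, a) = s (i, a') → a = a'
  · have h1 : (fun x => EP' (s x)) = fun x => ∑ j, EP' (s x) (yQ j) • EQ j := by
      funext x
      exact (Pool.Agent.W73.PG.PULL.expand yQ hlQ.bas EQ hlQ.dual (EP' (s x))).symm
    rw [h1, MultilinearMap.map_sum]
    refine Ge.sum _ _ fun u _ => ?_
    rw [MultilinearMap.map_smul_univ, smul_eq_mul]
    have h2 := Ge.prod (P := Q) Finset.univ (fun x => EP' (s x) (yQ (u x)))
      (fun x => if s x = i0 then 1 - (e : ℤ) else 0)
      fun x _ => coeff_ge hL hP hl hEP' hQ hlQ (s x) (u x)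
    refine (h2.mul (hreg _ fun x => hlQ.pres (u x))).mono ?_
    refine add_le_add ?_ le_rfl
    -- the number of the blocks
    rw [← Finset.univ_product_univ, Finset.sum_product]
    have h3 : ∀ i : Fin k, (1 - (e : ℤ)) ≤ ∑ a : Fin p, if s (i, a) = i0 then 1 - (e : ℤ) else 0 := by
      intro i
      by_cases h4 : ∃ a, s (i, a) = i0
      · obtain ⟨a, ha⟩ := h4
        rw [Finset.sum_eq_single a]
        · rw [if_pos ha]
        · intro a' _ ha'
          rw [if_neg]
          intro h5
          exact ha' (hinj i a' a (by rw [h5, ha]))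
        · intro h5
          exact absurd (Finset.mem_univ _) h5
      · push Not at h4
        rw [Finset.sum_eq_zero fun a _ => if_neg (h4 a)]
        omega
    calc (k : ℤ) * (1 - e) = ∑ _i : Fin k, (1 - (e : ℤ)) := by
          rw [Finset.sum_const, Finset.card_univ, Fintype.card_fin, nsmul_eq_mul]
      _ ≤ _ := Finset.sum_le_sum fun i _ => h3 i
  · push Not at hinj
    obtain ⟨i, a, a', h1, h2⟩ := hinj
    rw [hT _ i a a' h2 (by change EP' (s (i, a)) = EP' (s (i, a')); rw [h1])]
    exact Ge.zero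

/-- the values on the lifts of regular vector fields -/
theorem val_lift (hL : Algebra.trdeg ℂ L = n) {k : ℕ}
    {T : MultilinearMap K (fun _ : Fin k × Fin p => Derivation ℂ K K) K} (hT : Alt T)
    {P : Place ℂ L} (hP : Divisorial n P) {Q : Place ℂ K} {e : ℕ}
    (hQ : Over Q P e) {b : ℤ}
    (hreg : ∀ D : Fin k × Fin p → Derivation ℂ K K, (∀ x, DerReg Q (D x)) → Ge Q b (T D))
    {G : Fin k × Fin p → Derivation ℂ L L} (hG : ∀ x, DerReg P (G x))
    {G' : Fin k × Fin p → Derivation ℂ K K}
    (hG' : ∀ x f, G' x (algebraMap L K f) = algebraMap L K (G x f)) :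
    Ge Q (k * (1 - e) + b) (T G') := by
  classical
  have hK : Algebra.trdeg ℂ K = n := trdeg_up (K := L) hL
  obtain ⟨yP, EP, i0, hl⟩ := exists_loc hL hP
  choose EP' hEP' using fun i => exists_lift (k := ℂ) (K := L) (L := K) hL (EP i)
  have hbas : IsTranscendenceBasis ℂ (fun j => algebraMap L K (yP j)) := hl.bas.algebraMap_comp
  have h1 : G' = fun x => ∑ i, algebraMap L K (G x (yP i)) • EP' i := by
    funext x
    have h2 := Pool.Agent.W73.PG.PULL.expand (fun j => algebraMap L K (yP j)) hbas EP'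
      (lift_dual hl.dual hEP') (G' x)
    rw [← h2]
    exact Finset.sum_congr rfl fun i _ => by rw [hG']
  rw [h1, MultilinearMap.map_sum]
  refine Ge.sum _ _ fun s _ => ?_
  rw [MultilinearMap.map_smul_univ, smul_eq_mul]
  have h2 := Ge.prod (P := Q) Finset.univ (fun x => algebraMap L K (G x (yP (s x))))
    (fun _ => 0) fun x _ => hQ.reg.2 (hG x _ (hl.reg (s x)))
  have h3 := h2.mul (val_frame hL hT hP hl hEP' hQ hreg s)
  simpa using h3

end

end Pool.Agent.Helper65.TD
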