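import Pool.Agent.Helper65.TD.Main

/-!
Traces of twisted forms.
-/

set_option autoImplicit false
set_option linter.unusedSectionVars false
set_option linter.overlappingInstances false

open FF Module Pool.Agent.W602.GT Pool.Agent.W603.LV Pool.Agent.W619.PQ Pool.Agent.Y172

namespace Pool.Agent.Helper65.TD

open Pool.Agent.Helper65.Desc

variable {L K : Type} [Field L] [Field K] [Algebra ℂ L] [Algebra ℂ K] [Algebra L K]
  [IsScalarTower ℂ L K] [FiniteDimensional L K] [Algebra.EssFiniteType ℂ L]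
  [Algebra.EssFiniteType ℂ K] {n N M p d : ℕ}

theorem trace_pow_ne [CharZero L] {h x : K} (hgen : IntermediateField.adjoin L {h} = ⊤)
    (hx : x ≠ 0) : ∃ i : ℕ, i < finrank L K ∧ Algebra.trace L K (h ^ i * x) ≠ 0 := by
  classical
  by_contra hcon
  push Not at hcon
  have h1 : (minpoly L h).natDegree = finrank L K :=
    (Field.primitive_element_iff_minpoly_natDegree_eq L h).1 hgen
  have h2 := linearIndependent_pow (K := L) h
  rw [h1] at h2
  have hne : Nonempty (Fin (finrank L K)) := ⟨⟨0, finrank_pos⟩⟩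
  let b := basisOfLinearIndependentOfCardEqFinrank h2 (Fintype.card_fin _)
  have hb : ∀ i, b i = h ^ (i : ℕ) := fun i => by
    rw [coe_basisOfLinearIndependentOfCardEqFinrank]
  have h3 : ∀ y : K, Algebra.trace L K (y * x) = 0 := by
    intro y
    conv_lhs => rw [← b.sum_repr y]
    rw [Finset.sum_mul, map_sum]
    refine Finset.sum_eq_zero fun i _ => ?_
    rw [smul_mul_assoc, map_smul, hb, hcon i i.2, smul_zero]
  have h4 := h3 x⁻¹
  rw [inv_mul_cancel₀ hx] at h4
  have h5 : Algebra.trace L K (1 : K) = (finrank L K : L) := by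
    have h6 := Algebra.trace_algebraMap (R := L) (S := K) (1 : L)
    rw [map_one] at h6
    rw [h6, nsmul_eq_mul, mul_one]
  rw [h5] at h4
  exact (Nat.cast_ne_zero.2 (finrank_pos (R := L) (M := K)).ne') h4

/-- **Holomorphic forms on the image.** -/
theorem desc_form (hL : Algebra.trdeg ℂ L = n) {t : Fin N → K}
    (ht : IntermediateField.adjoin L (Set.range t) = ⊤)
    {T : MultilinearMap K (fun _ : Fin 1 × Fin p => Derivation ℂ K K) K} (hT : Alt T)
    (hTw : TwT n M t T) (hne : T ≠ 0) (hM : finrank L K ≤ M + 1) :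
    ∃ S : MultilinearMap L (fun _ : Fin 1 × Fin p => Derivation ℂ L L) L,
      Alt S ∧ RegT n S ∧ S ≠ 0 := by
  classical
  have hcL : CharZero L := charZero_of_injective_algebraMap (algebraMap ℂ L).injective
  obtain ⟨z, E, hz, hE⟩ := exists_crd (k := ℂ) (K := L) hL
  choose E' hE' using fun i => exists_lift (k := ℂ) (K := L) (L := K) hL (E i)
  obtain ⟨c, hc⟩ := exists_prim (k := ℂ) ht
  obtain ⟨h, hh⟩ : ∃ h, h = ∑ j, c j • t j := ⟨_, rfl⟩
  rw [← hh] at hc
  have hhQ : ∀ Q : Place ℂ K, Ge Q (-(pol t Q)) h := by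
    intro Q
    rw [hh]
    refine Ge.sum _ _ fun j _ => ?_
    rw [Algebra.smul_def]
    have h1 := (Ge.const (P := Q) (c j)).mul (ge_pol t Q j)
    rwa [zero_add] at h1
  obtain ⟨s, hs⟩ := exists_ne hL hne hz hE hE'
  obtain ⟨i, hir, hi⟩ := trace_pow_ne hc hs
  obtain ⟨lin, hlin⟩ : ∃ lin : K →ₗ[L] L,
      lin = (Algebra.trace L K).comp (LinearMap.mulLeft L (h ^ i)) := ⟨_, rfl⟩
  have hlv : ∀ x, lin x = Algebra.trace L K (h ^ i * x) := fun x => by rw [hlin]; rfl
  have hval : ∀ G, lin.compMultilinearMap (pl z E' T) G =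
      Algebra.trace L K (h ^ i * T fun x => lft z E' (G x)) := fun G => hlv _
  refine ⟨lin.compMultilinearMap (pl z E' T), ?_, ?_, ?_⟩
  · intro D a b b' hbb hD
    rw [hval, hT _ a b b' hbb (by
      change lft z E' (D (a, b)) = lft z E' (D (a, b'))
      rw [hD]), mul_zero, map_zero]
  · intro P hP G hG
    rw [hval]
    refine Pool.Agent.Y692.NT.trace_reg P _ fun Q e hQ => ?_
    have h1 := val_lift hL hT hP hQ (fun D hD => tw_ge hTw (divisorial_up hQ hP) hD)
      (G := G) hG (G' := fun x => lft z E' (G x)) fun x f => lft_alg hz hE hE' _ f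
    refine (((hhQ Q).pow i).mul h1).mono ?_
    have h2 : (i : ℤ) ≤ M := by omega
    have h3 := mul_le_mul_of_nonneg_right h2 (pol_nonneg t Q)
    push_cast
    linarith
  · intro h0
    have h1 : lin.compMultilinearMap (pl z E' T) (fun x => E (s x)) = 0 := by rw [h0]; rfl
    rw [hval] at h1
    apply hi
    rw [← h1]
    congr 2
    congr 1
    funext x
    exact (lft_E hE E' (s x)).symm

end Pool.Agent.Helper65.TD
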